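import Mathlib
import Pool.Agent.Q278.RM.Fin

/-!
# Sums of `m`-th powers of `C(r/m, k)` modulo `p³`

For all integers `m > 2` and `r ≥ -m/2` of different parities and every odd prime `p > r` with
`p ∤ m` and `p ≡ r (mod m)`: `∑_{k=0}^{p-1} (-1)^{km} C(r/m, k)^m ≡ 0 (mod p³)`.

Proof. Let `p - r = m n`, `t = p / m`, so `r / m = t - n`. Then
`(-1)^k C(r/m, k) ∏_{i=1}^{n-1} (i - t) = ∏_{i=1}^{n-1} (k + i - t) ∏_{j=1}^k (1 - t/j)`, and
modulo `p³` we have `∏ (1 - t/j)^m = (-1)^k C(p-1, k) (1 + c p² ∑_{j ≤ k} j^{-2})` with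
`c = C(m,2) / m²`. The main term is the `(p-1)`-st difference of a polynomial of degree
`m (n-1) = p - r - m < p - 1`, so it is `0`. The other term needs
`∑_{k<p} f(k) H_k^{(2)} ≡ 0 (mod p)` with `f(k) = ∏_{i=1}^{n-1} (k+i)^m`; this follows from the
reflection `k ↦ p - n - k` (here the parity condition enters) and the vanishing of the sums over
`F_p` of the polynomials `f` and `f / (X + i)²`, all of degree less than `p - 1`.
-/

set_option autoImplicit false

namespace Pool.Agent.Results.MP_9b2749_nt.AllCases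

open Finset

/-- `C(x, k) = x (x-1) ⋯ (x-k+1) / k!` -/
def binom (x : ℚ) (k : ℕ) : ℚ := (∏ j ∈ range k, (x - j)) / k.factorial

/-- `x ≡ 0 (mod p³)` for a rational number `x`: `x / p³` is a fraction with denominator prime to `p`. -/
def ModCubeZero (p : ℕ) (x : ℚ) : Prop := ∃ u v : ℤ, ¬ (p : ℤ) ∣ v ∧ x / (p : ℚ) ^ 3 = u / v

/-- **Main result.** The congruence holds for all `m, r, p` of the problem. -/
theorem result (m : ℕ) (r : ℤ) (p : ℕ) (hp : p.Prime) (hodd : Odd p) (hm : 2 < m) (hpm : ¬ p ∣ m)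
    (hpr : r < p) (hpar : ¬ (Even (m : ℤ) ↔ Even r)) (hmod : (p : ℤ) ≡ r [ZMOD m])
    (hr : -(m : ℚ) / 2 ≤ r) :
    ModCubeZero p (∑ k ∈ range p, (-1 : ℚ) ^ (k * m) * binom ((r : ℚ) / m) k ^ m) := by
  haveI : Fact p.Prime := ⟨hp⟩
  have h2p : 2 < p := by
    rcases hp.two_le.lt_or_eq with h | h
    · exact h
    · subst h
      exact absurd hodd (by decide)
  have hpar' : Odd ((m : ℤ) + r) := by
    rw [← Int.not_even_iff_odd, Int.even_add]
    exact hpar
  obtain ⟨u, v, hv, h⟩ := Pool.Agent.Q278.RM.final p m r h2p hm hpm hpr hpar' hmod hr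
  refine ⟨u, v, hv, ?_⟩
  have hv0 : (v : ℚ) ≠ 0 := by
    intro h0
    apply hv
    have : v = 0 := by exact_mod_cast h0
    rw [this]
    exact dvd_zero _
  have hp0 : (p : ℚ) ^ 3 ≠ 0 := pow_ne_zero 3 (by exact_mod_cast hp.ne_zero)
  rw [div_eq_div_iff hp0 hv0]
  have h' : (∑ k ∈ range p, (-1 : ℚ) ^ (k * m) * binom ((r : ℚ) / m) k ^ m) * v = (p : ℚ) ^ 3 * u := h
  rw [h']
  ring

end Pool.Agent.Results.MP_9b2749_nt.AllCases
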